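import Mathlib

/-!
The `T`-strong open set condition can fail: in every dimension `d ≥ 1`, for `R = 2 I` and a simple
digit set with one element, the attractor of the digit set lies outside the interior of the
attractor of every complete set of representatives which contains it.
-/

namespace Pool.Agent.Results.MP_332e42_an.SingleDigit

open MeasureTheory Set
open scoped Pointwise ENNReal

/-- The vector of `ℤ ^ d` as a point of `ℝ ^ d`. -/
def point {d : ℕ} (b : Fin d → ℤ) : Fin d → ℝ := fun i => (b i : ℝ)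

/-- An integer matrix is expansive: all its complex eigenvalues have modulus greater than one. -/
def Expansive {d : ℕ} (R : Matrix (Fin d) (Fin d) ℤ) : Prop :=
  ∀ z ∈ spectrum ℂ (R.map (Int.cast : ℤ → ℂ)), 1 < ‖z‖

/-- Congruence modulo the lattice `R (ℤ ^ d)`. -/
def Congruent {d : ℕ} (R : Matrix (Fin d) (Fin d) ℤ) (z w : Fin d → ℤ) : Prop :=
  ∃ v : Fin d → ℤ, z - w = R.mulVec v

/-- A simple digit set: a finite nonempty set no two distinct elements of which are congruent
modulo `R (ℤ ^ d)`. -/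
def SimpleDigits {d : ℕ} (R : Matrix (Fin d) (Fin d) ℤ) (B : Finset (Fin d → ℤ)) : Prop :=
  B.Nonempty ∧ ∀ b ∈ B, ∀ b' ∈ B, Congruent R b b' → b = b'

/-- A complete set of representatives modulo `R (ℤ ^ d)`. -/
def Complete {d : ℕ} (R : Matrix (Fin d) (Fin d) ℤ) (B : Finset (Fin d → ℤ)) : Prop :=
  ∀ z : Fin d → ℤ, ∃! b, b ∈ B ∧ Congruent R z b

/-- The maps `τ_b (x) = R⁻¹ (x + b)`. -/
noncomputable def tau {d : ℕ} (R : Matrix (Fin d) (Fin d) ℤ) (b : Fin d → ℤ) (x : Fin d → ℝ) :
    Fin d → ℝ :=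
  (R.map (Int.cast : ℤ → ℝ))⁻¹.mulVec (x + point b)

/-- `T` is the attractor of the maps `τ_b`, `b ∈ B`: it is nonempty and compact, and it is the
union of its images. -/
def IsAttractor {d : ℕ} (R : Matrix (Fin d) (Fin d) ℤ) (B : Finset (Fin d → ℤ))
    (T : Set (Fin d → ℝ)) : Prop :=
  T.Nonempty ∧ IsCompact T ∧ T = ⋃ b ∈ B, tau R b '' T

/-- The `T`-strong open set condition for `B`: for some complete set of representatives which
contains `B`, the attractor of `B` meets the interior of the attractor of the complete set. -/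
def TSOSC {d : ℕ} (R : Matrix (Fin d) (Fin d) ℤ) (B : Finset (Fin d → ℤ)) : Prop :=
  ∃ Bbar : Finset (Fin d → ℤ), B ⊆ Bbar ∧ Complete R Bbar ∧
    ∃ T T' : Set (Fin d → ℝ), IsAttractor R B T ∧ IsAttractor R Bbar T' ∧
      (T ∩ interior T').Nonempty

/-- The matrix `2 I`. -/
def two (d : ℕ) : Matrix (Fin d) (Fin d) ℤ := (2 : ℤ) • 1

variable {d : ℕ}

lemma two_mulVec (v : Fin d → ℤ) : (two d).mulVec v = (2 : ℤ) • v := by
  simp [two]

lemma tau_two (b : Fin d → ℤ) (x : Fin d → ℝ) :
    tau (two d) b x = (2⁻¹ : ℝ) • (x + point b) := by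
  have h1 : (two d).map (Int.cast : ℤ → ℝ) = (2 : ℝ) • (1 : Matrix (Fin d) (Fin d) ℝ) := by
    ext i j
    simp only [two, Matrix.map_apply, Matrix.smul_apply, Matrix.one_apply]
    split_ifs <;> norm_num
  have h2 : ((2 : ℝ) • (1 : Matrix (Fin d) (Fin d) ℝ))⁻¹ = (2⁻¹ : ℝ) • 1 := by
    apply Matrix.inv_eq_right_inv
    rw [smul_mul_smul_comm, mul_one]
    norm_num
  rw [tau, h1, h2, Matrix.smul_mulVec, Matrix.one_mulVec]

lemma expansive_two : Expansive (two d) := by
  intro z hz
  have h1 : (two d).map (Int.cast : ℤ → ℂ) = algebraMap ℂ (Matrix (Fin d) (Fin d) ℂ) 2 := by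
    rw [Algebra.algebraMap_eq_smul_one]
    ext i j
    simp only [two, Matrix.map_apply, Matrix.smul_apply, Matrix.one_apply]
    split_ifs <;> norm_num
  rw [h1, spectrum.mem_iff, ← map_sub] at hz
  have h2 : z - 2 = 0 := by
    by_contra h
    exact hz ((IsUnit.mk0 _ h).map _)
  have h3 : z = 2 := sub_eq_zero.mp h2
  rw [h3]; norm_num

lemma simple_two (b : Fin d → ℤ) : SimpleDigits (two d) {b} := by
  refine ⟨Finset.singleton_nonempty b, fun x hx y hy _ => ?_⟩
  rw [Finset.mem_singleton] at hx hy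
  rw [hx, hy]

lemma congruent_two_iff (z w : Fin d → ℤ) :
    Congruent (two d) z w ↔ ∀ i, ((z i : ℤ) : ZMod 2) = (w i : ZMod 2) := by
  constructor
  · rintro ⟨v, hv⟩ i
    rw [two_mulVec] at hv
    have h1 : z i - w i = 2 * v i := by simpa using congrFun hv i
    have h2 : ((z i - w i : ℤ) : ZMod 2) = 0 := by
      rw [h1]; push_cast
      have : (2 : ZMod 2) = 0 := rfl
      rw [this, zero_mul]
    push_cast at h2
    exact sub_eq_zero.mp h2
  · intro h
    have h1 : ∀ i, ∃ v : ℤ, z i - w i = 2 * v := by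
      intro i
      have h2 : ((z i - w i : ℤ) : ZMod 2) = 0 := by
        push_cast; exact sub_eq_zero.mpr (h i)
      obtain ⟨v, hv⟩ := (ZMod.intCast_zmod_eq_zero_iff_dvd (z i - w i) 2).mp h2
      exact ⟨v, by simpa using hv⟩
    choose v hv using h1
    refine ⟨v, ?_⟩
    rw [two_mulVec]
    ext i
    simpa using hv i

lemma card_complete {B : Finset (Fin d → ℤ)} (h : Complete (two d) B) : B.card = 2 ^ d := by
  classical
  have h1 : Function.Bijective
      (fun b : B => (fun i => ((b.1 i : ℤ) : ZMod 2) : Fin d → ZMod 2)) := by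
    constructor
    · intro b b' hb
      have h2 : Congruent (two d) b.1 b'.1 := (congruent_two_iff _ _).mpr fun i => congrFun hb i
      have h3 : Congruent (two d) b.1 b.1 := (congruent_two_iff _ _).mpr fun i => rfl
      exact Subtype.ext ((h b.1).unique ⟨b.2, h3⟩ ⟨b'.2, h2⟩)
    · intro f
      choose g hg using fun i => ZMod.intCast_surjective (f i)
      obtain ⟨b, ⟨hb, hc⟩, _⟩ := h g
      refine ⟨⟨b, hb⟩, ?_⟩
      ext i : 1
      have := (congruent_two_iff _ _).mp hc i
      simp only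
      rw [← this, hg]
  have h2 := Fintype.card_of_bijective h1
  rw [Fintype.card_coe] at h2
  rw [h2, Fintype.card_fun, ZMod.card, Fintype.card_fin]

lemma tau_mem {B : Finset (Fin d → ℤ)} {T : Set (Fin d → ℝ)} (h : IsAttractor (two d) B T)
    {b : Fin d → ℤ} (hb : b ∈ B) {x : Fin d → ℝ} (hx : x ∈ T) :
    (2⁻¹ : ℝ) • (x + point b) ∈ T := by
  rw [h.2.2]
  exact mem_biUnion hb ⟨x, hx, tau_two b x⟩

/-- The images of the attractor near a fixed point. -/
lemma homothety_mem {B : Finset (Fin d → ℤ)} {T : Set (Fin d → ℝ)} (h : IsAttractor (two d) B T)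
    {b : Fin d → ℤ} (hb : b ∈ B) (n : ℕ) {x : Fin d → ℝ} (hx : x ∈ T) :
    point b + (2⁻¹ : ℝ) ^ n • (x - point b) ∈ T := by
  induction n with
  | zero => simpa using hx
  | succ n ih =>
    have h1 := tau_mem h hb ih
    convert h1 using 1
    ext i
    simp only [Pi.add_apply, Pi.smul_apply, Pi.sub_apply, smul_eq_mul, pow_succ]
    ring

/-- The attractor of one digit is a point. -/
lemma attractor_single {b : Fin d → ℤ} {T : Set (Fin d → ℝ)} (h : IsAttractor (two d) {b} T) :
    T ⊆ {point b} := by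
  obtain ⟨x, hx, hmax⟩ := h.2.1.exists_isMaxOn h.1
    (f := fun x : Fin d → ℝ => ‖x - point b‖) (by fun_prop)
  have h1 : x ∈ ⋃ b' ∈ ({b} : Finset (Fin d → ℤ)), tau (two d) b' '' T := by
    rw [← h.2.2]; exact hx
  simp only [Finset.mem_singleton, iUnion_iUnion_eq_left, mem_image] at h1
  obtain ⟨y, hy, hyx⟩ := h1
  rw [tau_two] at hyx
  have h2 : x - point b = (2⁻¹ : ℝ) • (y - point b) := by
    rw [← hyx]
    ext i
    simp only [Pi.sub_apply, Pi.smul_apply, Pi.add_apply, smul_eq_mul]
    ring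
  have h3 : ‖x - point b‖ = 2⁻¹ * ‖y - point b‖ := by
    rw [h2, norm_smul]; norm_num
  have h4 : ‖y - point b‖ ≤ ‖x - point b‖ := hmax hy
  have h5 : ‖x - point b‖ ≤ 0 := by
    have := norm_nonneg (y - point b)
    linarith
  intro w hw
  have h6 : ‖w - point b‖ ≤ ‖x - point b‖ := hmax hw
  have h7 : ‖w - point b‖ = 0 := le_antisymm (h6.trans h5) (norm_nonneg _)
  exact sub_eq_zero.mp (norm_eq_zero.mp h7)

/-- The translates of the attractor by two digits overlap in a set of measure zero. -/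
lemma overlap_null {B : Finset (Fin d → ℤ)} {T : Set (Fin d → ℝ)} (h : IsAttractor (two d) B T)
    (hB : Complete (two d) B) {b c : Fin d → ℤ} (hb : b ∈ B) (hc : c ∈ B) (hbc : b ≠ c) :
    volume ((fun x => x + point b) '' T ∩ (fun x => x + point c) '' T) = 0 := by
  classical
  have hfin : volume T ≠ ∞ := h.2.1.measure_lt_top.ne
  set A : (Fin d → ℤ) → Set (Fin d → ℝ) := fun a => (fun x => x + point a) '' T with hA
  have hAm : ∀ a, MeasurableSet (A a) := fun a =>
    (h.2.1.image (by fun_prop)).isClosed.measurableSet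
  have hAv : ∀ a, volume (A a) = volume T := by
    intro a
    simp only [hA, image_add_right]
    exact measure_preimage_add_right volume _ T
  have h1 : (2 : ℝ) • T = ⋃ a ∈ B, A a := by
    conv_lhs => rw [h.2.2]
    ext x
    simp only [mem_smul_set, mem_iUnion, mem_image, exists_prop, hA]
    constructor
    · rintro ⟨y, ⟨a, ha, t, ht, rfl⟩, rfl⟩
      refine ⟨a, ha, t, ht, ?_⟩
      rw [tau_two, smul_smul]
      norm_num
    · rintro ⟨a, ha, t, ht, rfl⟩
      refine ⟨tau (two d) a t, ⟨a, ha, t, ht, rfl⟩, ?_⟩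
      rw [tau_two, smul_smul]
      norm_num
  have h2 : volume ((2 : ℝ) • T) = 2 ^ d * volume T := by
    rw [Measure.addHaar_smul, Module.finrank_fin_fun]
    congr 1
    rw [abs_of_pos (by positivity), ENNReal.ofReal_pow (by norm_num)]
    norm_num
  have h3 : volume (⋃ a ∈ B, A a) ≤ volume (A b ∪ A c) + ∑ a ∈ (B.erase b).erase c, volume (A a) := by
    calc volume (⋃ a ∈ B, A a)
        ≤ volume ((A b ∪ A c) ∪ ⋃ a ∈ (B.erase b).erase c, A a) := by
          apply measure_mono
          intro x hx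
          simp only [mem_iUnion, exists_prop] at hx
          obtain ⟨a, ha, hxa⟩ := hx
          by_cases h1 : a = b
          · subst h1; exact Or.inl (Or.inl hxa)
          by_cases h2 : a = c
          · subst h2; exact Or.inl (Or.inr hxa)
          refine Or.inr ?_
          simp only [mem_iUnion, exists_prop]
          exact ⟨a, by simp [Finset.mem_erase, h1, h2, ha], hxa⟩
      _ ≤ volume (A b ∪ A c) + volume (⋃ a ∈ (B.erase b).erase c, A a) := measure_union_le _ _
      _ ≤ _ := by gcongr; exact measure_biUnion_finset_le _ _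
  have h4 : volume (A b ∪ A c) + volume (A b ∩ A c) = 2 * volume T := by
    rw [measure_union_add_inter _ (hAm c), hAv, hAv, two_mul]
  have h5 : (((B.erase b).erase c).card : ℝ≥0∞) + 2 = 2 ^ d := by
    have hc' : c ∈ B.erase b := Finset.mem_erase.mpr ⟨hbc.symm, hc⟩
    have h6 := Finset.card_erase_add_one hc'
    have h7 := Finset.card_erase_add_one hb
    rw [card_complete hB] at h7
    have h8 : ((B.erase b).erase c).card + 2 = 2 ^ d := by omega
    exact_mod_cast h8
  have h6 : 2 ^ d * volume T + volume (A b ∩ A c) ≤ 2 ^ d * volume T + 0 := by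
    calc 2 ^ d * volume T + volume (A b ∩ A c)
        ≤ (volume (A b ∪ A c) + ∑ a ∈ (B.erase b).erase c, volume (A a)) +
          volume (A b ∩ A c) := by
          gcongr
          rw [← h2, h1]
          exact h3
      _ = 2 * volume T + ((B.erase b).erase c).card * volume T := by
          rw [add_right_comm, h4, Finset.sum_congr rfl fun a _ => hAv a, Finset.sum_const,
            nsmul_eq_mul]
      _ = 2 ^ d * volume T + 0 := by
          rw [← add_mul, add_comm (2 : ℝ≥0∞), h5, add_zero]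
  have h7 : (2 : ℝ≥0∞) ^ d * volume T ≠ ∞ := ENNReal.mul_ne_top (by finiteness) hfin
  exact le_antisymm ((ENNReal.add_le_add_iff_left h7).mp h6) bot_le

theorem not_mem_interior (hd : 1 ≤ d) {B : Finset (Fin d → ℤ)} {T : Set (Fin d → ℝ)}
    (h : IsAttractor (two d) B T) (hB : Complete (two d) B) {b : Fin d → ℤ} (hb : b ∈ B) :
    point b ∉ interior T := by
  intro hin
  obtain ⟨ε, hε, hball⟩ := Metric.mem_nhds_iff.mp (mem_interior_iff_mem_nhds.mp hin)
  -- another digit
  obtain ⟨c, hc, hbc⟩ : ∃ c ∈ B, b ≠ c := by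
    obtain ⟨c, ⟨hc, hcc⟩, _⟩ := hB (b + fun _ => 1)
    refine ⟨c, hc, ?_⟩
    rintro rfl
    have := (congruent_two_iff _ _).mp hcc ⟨0, hd⟩
    simp at this
  have hpos : 0 < volume T :=
    lt_of_lt_of_le (isOpen_interior.measure_pos volume ⟨_, hin⟩) (measure_mono interior_subset)
  obtain ⟨M, hM⟩ : ∃ M : ℝ, ∀ x ∈ T, ‖x - point c‖ ≤ M := by
    obtain ⟨M, hM⟩ := h.2.1.isBounded.subset_closedBall (point c)
    exact ⟨M, fun x hx => by simpa [dist_eq_norm] using hM hx⟩
  obtain ⟨n, hn⟩ : ∃ n : ℕ, (2⁻¹ : ℝ) ^ n * (|M| + 1) < ε := by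
    obtain ⟨n, hn⟩ := exists_pow_lt_of_lt_one (show 0 < ε / (|M| + 1) by positivity)
      (show (2⁻¹ : ℝ) < 1 by norm_num)
    exact ⟨n, (lt_div_iff₀ (by positivity)).mp hn⟩
  -- a small copy of `T` near `c`
  set S : Set (Fin d → ℝ) := AffineMap.homothety (point c) ((2⁻¹ : ℝ) ^ n) '' T with hS
  have hSv : 0 < volume S := by
    rw [hS, Measure.addHaar_image_homothety]
    apply ENNReal.mul_pos _ hpos.ne'
    simp
  have hST : S ⊆ T := by
    rintro _ ⟨x, hx, rfl⟩
    have := homothety_mem h hc n hx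
    rw [AffineMap.homothety_apply]
    simpa [add_comm] using this
  have hSb : ∀ y ∈ S, ‖y - point c‖ < ε := by
    rintro _ ⟨x, hx, rfl⟩
    rw [AffineMap.homothety_apply]
    simp only [vsub_eq_sub, vadd_eq_add, add_sub_cancel_right]
    rw [norm_smul, norm_pow]
    calc ‖(2⁻¹ : ℝ)‖ ^ n * ‖x - point c‖ ≤ (2⁻¹ : ℝ) ^ n * (|M| + 1) := by
          have h1 : ‖(2⁻¹ : ℝ)‖ = 2⁻¹ := by norm_num
          rw [h1]
          gcongr
          exact (hM x hx).trans ((le_abs_self M).trans (by linarith))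
      _ < ε := hn
  have hsub : (fun x => x + point b) '' S ⊆
      (fun x => x + point b) '' T ∩ (fun x => x + point c) '' T := by
    rintro _ ⟨y, hy, rfl⟩
    refine ⟨⟨y, hST hy, rfl⟩, ⟨y + point b - point c, hball ?_, by simp⟩⟩
    have h1 : y + point b - point c - point b = y - point c := by abel
    rw [mem_ball_iff_norm, h1]
    exact hSb y hy
  have hvol : volume ((fun x => x + point b) '' S) = volume S := by
    simp only [image_add_right]
    exact measure_preimage_add_right volume _ S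
  have := measure_mono_null hsub (overlap_null h hB hb hc hbc)
  rw [hvol] at this
  exact hSv.ne' this

/-- Every finite nonempty set of digits has an attractor for `R = 2 I`. -/
lemma exists_attractor {B : Finset (Fin d → ℤ)} (hB : B.Nonempty) :
    ∃ T, IsAttractor (two d) B T := by
  classical
  have : Nonempty B := hB.to_subtype
  obtain ⟨M, hM⟩ : ∃ M : ℝ, ∀ b : B, ‖point b.1‖ ≤ M := by
    obtain ⟨M, hM⟩ := (Set.finite_range fun b : B => ‖point b.1‖).bddAbove
    exact ⟨M, fun b => hM ⟨b, rfl⟩⟩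
  let F : (ℕ → B) → Fin d → ℝ := fun s => ∑' j : ℕ, (2⁻¹ : ℝ) ^ (j + 1) • point (s j).1
  have hbound : ∀ (s : ℕ → B) (j : ℕ),
      ‖(2⁻¹ : ℝ) ^ (j + 1) • point (s j).1‖ ≤ (2⁻¹ : ℝ) ^ j * M := by
    intro s j
    rw [norm_smul, norm_pow]
    have h1 : ‖(2⁻¹ : ℝ)‖ = 2⁻¹ := by norm_num
    rw [h1]
    have h2 : (2⁻¹ : ℝ) ^ (j + 1) ≤ (2⁻¹ : ℝ) ^ j :=
      pow_le_pow_of_le_one (by norm_num) (by norm_num) (by omega)
    exact mul_le_mul h2 (hM _) (norm_nonneg _) (by positivity)
  have hsumm : Summable fun j : ℕ => (2⁻¹ : ℝ) ^ j * M :=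
    (summable_geometric_of_lt_one (by norm_num) (by norm_num)).mul_right M
  have hS : ∀ s : ℕ → B, Summable fun j : ℕ => (2⁻¹ : ℝ) ^ (j + 1) • point (s j).1 :=
    fun s => Summable.of_norm_bounded hsumm (hbound s)
  have hF : Continuous F := by
    refine continuous_tsum (fun j => ?_) hsumm fun j s => hbound s j
    have h1 : Continuous fun b : B => point b.1 := continuous_of_discreteTopology
    have h2 : Continuous fun s : ℕ → B => s j := continuous_apply j
    have h3 : Continuous fun s : ℕ → B => point (s j).1 := h1.comp h2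
    exact h3.const_smul ((2⁻¹ : ℝ) ^ (j + 1))
  have hstep : ∀ s : ℕ → B, F s = tau (two d) (s 0).1 (F fun j => s (j + 1)) := by
    intro s
    rw [tau_two]
    simp only [F]
    rw [(hS s).tsum_eq_zero_add, smul_add, ← ((hS fun j => s (j + 1))).tsum_const_smul, add_comm]
    congr 1
    · refine tsum_congr fun j => ?_
      rw [smul_smul, pow_succ' (2⁻¹ : ℝ) (j + 1)]
    · simp
  refine ⟨range F, range_nonempty F, isCompact_range hF, ?_⟩
  ext x
  simp only [mem_range, mem_iUnion, mem_image, exists_prop]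
  constructor
  · rintro ⟨s, rfl⟩
    exact ⟨(s 0).1, (s 0).2, _, ⟨_, rfl⟩, (hstep s).symm⟩
  · rintro ⟨b, hb, _, ⟨s, rfl⟩, rfl⟩
    refine ⟨fun j => Nat.casesOn j ⟨b, hb⟩ s, ?_⟩
    rw [hstep]
    rfl

/-- **The `T`-strong open set condition fails for one digit and `R = 2 I`.** In every dimension
`d ≥ 1` the matrix `2 I` is expansive, every set `{b}` is a simple digit set which does not satisfy
the `T`-strong open set condition, and (so that this is not empty) all finite nonempty digit sets
have attractors for `2 I`. -/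
theorem result (d : ℕ) (hd : 1 ≤ d) :
    Expansive (two d) ∧
    (∀ b : Fin d → ℤ, SimpleDigits (two d) {b} ∧ ¬ TSOSC (two d) {b}) ∧
    ∀ B : Finset (Fin d → ℤ), B.Nonempty → ∃ T, IsAttractor (two d) B T := by
  refine ⟨expansive_two, fun b => ⟨simple_two b, ?_⟩, fun B hB => exists_attractor hB⟩
  rintro ⟨Bbar, hsub, hcomp, T, T', hT, hT', x, hx, hx'⟩
  have h1 : x = point b := attractor_single hT hx
  subst h1
  exact not_mem_interior hd hT' hcomp (hsub (Finset.mem_singleton_self b)) hx'

end Pool.Agent.Results.MP_332e42_an.SingleDigit
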